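import Mathlib
import Pool.Agent.H48.RC

set_option autoImplicit false

namespace Pool.Agent.Results.MP_9bb08e_al.Yes

open Polynomial Pool.Agent.H48.RC
open scoped PowerSeries LaurentSeries RatFunc

noncomputable def q (R : Type) [CommRing R] (d : ℕ) : R[X] := ∏ i : Fin d, (X - C ((i : ℕ) : R))

theorem q_map {R S : Type} [CommRing R] [CommRing S] (f : R →+* S) (d : ℕ) :
    (q R d).map f = q S d := by simp [q, Polynomial.map_prod]

theorem q_monic (R : Type) [CommRing R] (d : ℕ) : (q R d).Monic :=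
  monic_prod_of_monic _ _ fun _ _ => monic_X_sub_C _

theorem q_deg (R : Type) [CommRing R] [Nontrivial R] (d : ℕ) : (q R d).natDegree = d := by
  rw [q, natDegree_prod_of_monic _ _ fun _ _ => monic_X_sub_C _]
  simp [-map_natCast]

theorem hensel (d : ℕ) (r : ℚ⟦X⟧[X]) (h : r.degree < d) :
    ((q _ d + C PowerSeries.X * r).map (algebraMap ℚ⟦X⟧ ℚ⸨X⸩)).Splits := by
  classical
  have h0 : (C PowerSeries.X * r).degree < (q ℚ⟦X⟧ d).degree := by
    rw [degree_eq_natDegree (q_monic _ d).ne_zero, q_deg, degree_C_mul PowerSeries.X_ne_zero]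
    exact h
  have h1 : (q _ d + C PowerSeries.X * r).Monic := (q_monic _ d).add_of_left h0
  have h2 : (q _ d + C PowerSeries.X * r).map PowerSeries.constantCoeff = q ℚ d := by
    simp [q_map]
  have h3 : ∀ i : Fin d, ∃ a : ℚ⟦X⟧, (q _ d + C PowerSeries.X * r).IsRoot a ∧
      PowerSeries.constantCoeff a = (i : ℕ) := fun i => by
    have h4 : (q ℚ d).eval ((i : ℕ) : ℚ) = 0 := by
      rw [q, eval_prod]
      exact Finset.prod_eq_zero (Finset.mem_univ i) (by simp)
    have h5 : ∀ p : ℚ⟦X⟧[X], PowerSeries.constantCoeff (p.eval ((i : ℕ) : ℚ⟦X⟧)) =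
        (p.map PowerSeries.constantCoeff).eval ((i : ℕ) : ℚ) := fun p => by
      rw [← eval_map_apply, map_natCast]
    obtain ⟨a, h6, h7⟩ := HenselianRing.is_henselian (I := .span {(PowerSeries.X : ℚ⟦X⟧)}) _ h1
      ((i : ℕ) : ℚ⟦X⟧) (by rw [Ideal.mem_span_singleton, PowerSeries.X_dvd_iff, h5, h2, h4])
      (IsUnit.map _ (PowerSeries.isUnit_iff_constantCoeff.mpr (by
        rw [h5, ← derivative_map, h2]
        exact ((separable_prod_X_sub_C_iff.mpr fun a b h => Fin.ext (by exact_mod_cast h) :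
          (q ℚ d).Separable).aeval_derivative_ne_zero h4).isUnit)))
    rw [Ideal.mem_span_singleton, PowerSeries.X_dvd_iff, map_sub, sub_eq_zero, map_natCast] at h7
    exact ⟨a, h6, h7⟩
  choose a h4 h5 using h3
  refine Splits.map ?_ _
  rw [splits_iff_card_roots]
  refine (card_roots' _).antisymm ?_
  rw [natDegree_add_eq_left_of_degree_lt h0, q_deg]
  refine le_trans ?_ (Multiset.toFinset_card_le _)
  simpa using Finset.card_le_card_of_injOn (s := Finset.univ) a
    (fun i _ => by simpa [h1.ne_zero] using h4 i) fun i _ j _ h => Fin.ext (by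
      exact_mod_cast (h5 i).symm.trans (h ▸ h5 j))

theorem rat_of_alg {w : ℚ⸨X⸩} (φ : ℚ →+* ℚ⸨X⸩) (h : φ.IsIntegralElem w) : ∃ c : ℚ, w = c := by
  obtain ⟨p, hp, h⟩ := h
  obtain ⟨v, rfl⟩ := (IsIntegrallyClosed.isIntegral_iff (R := ℚ⟦X⟧) (x := w)).mp
    ⟨p.map (algebraMap ℚ _), hp.map _, by rwa [eval₂_map, RingHom.ext_rat (RingHom.comp _ _) φ]⟩
  have h1 : IsIntegral ℚ v := ⟨p, hp, IsFractionRing.injective _ ℚ⸨X⸩ (by
    rwa [hom_eval₂, map_zero, RingHom.ext_rat (RingHom.comp _ _) φ])⟩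
  have h2 : (minpoly ℚ v).IsRoot (PowerSeries.constantCoeff v) := by
    have := congrArg PowerSeries.constantCoeff (minpoly.aeval ℚ v)
    rwa [aeval_def, hom_eval₂, map_zero, RingHom.ext_rat (RingHom.comp _ _) (RingHom.id ℚ)] at this
  obtain ⟨c, rfl⟩ := minpoly.mem_range_of_degree_eq_one ℚ v
    (degree_eq_one_of_irreducible_of_root (minpoly.irreducible h1) h2)
  exact ⟨c, eq_ratCast ((algebraMap ℚ⟦X⟧ ℚ⸨X⸩).comp (algebraMap ℚ _)) c⟩

variable {K : Type} [Field K] [LinearOrder K] [IsStrictOrderedRing K] [Algebra (RatFunc ℚ) K]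

theorem cofinal [Algebra.IsAlgebraic (RatFunc ℚ) K]
    (ht : ∀ n : ℕ, (n : K) < algebraMap (RatFunc ℚ) K RatFunc.X) (y : K) :
    ∃ N, |y| ≤ algebraMap (RatFunc ℚ) K RatFunc.X ^ N := by
  set t := algebraMap (RatFunc ℚ) K RatFunc.X with htd
  have h2 : 2 < t := by simpa using ht 2
  have h3 : ∀ c : ℚ, |(c : K)| < t := fun c => by
    obtain ⟨n, hn⟩ := exists_nat_gt |c|
    exact lt_trans (by exact_mod_cast hn) (ht n)
  let B : ValuationSubring K :=
    { carrier := {y | ∃ N, |y| ≤ t ^ N}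
      mul_mem' := by
        rintro a b ⟨m, hm⟩ ⟨n, hn⟩
        exact ⟨m + n, by rw [abs_mul, pow_add]; gcongr⟩
      one_mem' := ⟨0, by simp⟩
      add_mem' := by
        rintro a b ⟨m, hm⟩ ⟨n, hn⟩
        have h4 := pow_le_pow_right₀ (by linarith : 1 ≤ t) (Nat.le_add_right m n)
        have h5 := pow_le_pow_right₀ (by linarith : 1 ≤ t) (Nat.le_add_left n m)
        exact ⟨m + n + 1, by
          rw [pow_succ]; nlinarith [abs_add_le a b, pow_pos (by linarith : 0 < t) (m + n)]⟩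
      zero_mem' := ⟨0, by simp⟩
      neg_mem' := by simp
      mem_or_inv_mem' := fun y => (le_total |y| 1).imp (fun h => ⟨0, by simpa using h⟩)
        fun h => ⟨0, by simpa [abs_inv] using inv_le_one_of_one_le₀ h⟩ }
  have h4 : ∀ a : ℚ[X], aeval t a ∈ B := fun a => by
    induction a using Polynomial.induction_on' with
    | add a b ha hb => rw [map_add]; exact add_mem ha hb
    | monomial n c =>
      rw [aeval_monomial]
      exact mul_mem ⟨1, by simpa using (h3 c).le⟩
        (pow_mem (show t ∈ B from ⟨1, by simp [abs_of_pos (by linarith : 0 < t)]⟩) _)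
  have h5 : ∀ (n : ℕ) (a : ℚ[X]), a.natDegree = n → a ≠ 0 →
      ∃ c : ℚ, 0 < c ∧ (c : K) ≤ |aeval t a| := fun n => by
    induction n with
    | zero =>
      intro a ha h
      rw [eq_C_of_natDegree_eq_zero ha] at h ⊢
      exact ⟨|a.coeff 0|, abs_pos.mpr (C_ne_zero.mp h), by simp⟩
    | succ n ih =>
      intro a ha _
      obtain ⟨c, hc, h6⟩ := ih a.divX (by rw [natDegree_divX_eq_natDegree_tsub_one, ha]; rfl)
        fun h => by rw [divX_eq_zero_iff.mp h, natDegree_C] at ha; omega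
      refine ⟨1, one_pos, ?_⟩
      have h7 := (le_abs_self _).trans_lt (h3 ((1 + |a.coeff 0|) / c))
      have hc' : (0 : K) < c := by exact_mod_cast hc
      push_cast at h7
      rw [div_lt_iff₀ hc'] at h7
      have h8 := abs_sub (aeval t a) (a.coeff 0 : K)
      rw [← divX_mul_X_add a, map_add, map_mul, aeval_X, aeval_C, eq_ratCast,
        coeff_add, mul_coeff_zero, coeff_X_zero, mul_zero, zero_add, coeff_C_zero,
        add_sub_cancel_right, abs_mul, abs_of_pos (by linarith : 0 < t)] at h8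
      rw [← divX_mul_X_add a, map_add, map_mul, aeval_X, aeval_C, eq_ratCast, Rat.cast_one]
      nlinarith
  have h6 : ∀ a : ℚ[X], algebraMap (RatFunc ℚ) K (algebraMap _ _ a) = aeval t a := fun a =>
    RingHom.congr_fun (Polynomial.ringHom_ext' (f := (algebraMap (RatFunc ℚ) K).comp
      (algebraMap _ _)) (g := (aeval t).toRingHom) (RingHom.ext_rat _ _) (by simp [htd])) a
  have h7 : ∀ x, algebraMap (RatFunc ℚ) K x ∈ B := fun x => by
    rw [← x.num_div_denom, map_div₀, h6, h6, div_eq_mul_inv]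
    obtain ⟨c, hc, h7⟩ := h5 _ _ rfl x.denom_ne_zero
    refine mul_mem (h4 _) ⟨1, ?_⟩
    rw [abs_inv, pow_one]
    refine (inv_anti₀ (by exact_mod_cast hc) h7).trans ((le_abs_self _).trans ?_)
    simpa using (h3 c⁻¹).le
  obtain ⟨p, h8, h9⟩ := (Algebra.IsAlgebraic.isAlgebraic (R := RatFunc ℚ) y).isIntegral
  obtain ⟨z, rfl⟩ := (IsIntegrallyClosed.isIntegral_iff (R := B)).mp
    ⟨p.map ((algebraMap _ K).codRestrict B h7), h8.map _, by rw [eval₂_map]; exact h9⟩
  exact z.2

theorem result (K : Type) [Field K] [LinearOrder K] [IsStrictOrderedRing K] [IsRealClosed K]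
    [Algebra (RatFunc ℚ) K] [Algebra.IsAlgebraic (RatFunc ℚ) K]
    (ht : ∀ n : ℕ, (n : K) < algebraMap (RatFunc ℚ) K RatFunc.X) :
    ∃ F : Subfield K, (∀ a b : K, a < b → ∃ f ∈ F, a < f ∧ f < b) ∧
      ∀ f ∈ F, IsAlgebraic ℚ f → ∃ c : ℚ, f = c := by
  obtain ⟨x, hx⟩ := zorn_le (α := IntermediateField.Lifts (RatFunc ℚ) K ℚ⸨X⸩) fun c hc =>
    IntermediateField.Lifts.exists_upper_bound c hc
  refine ⟨x.carrier.toSubfield, fun a b hab => ?_, fun f hf h => ?_⟩
  swap
  · have h1 : IsIntegral ℚ (⟨f, hf⟩ : x.carrier) :=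
      (isIntegral_algHom_iff x.carrier.val.toRingHom.toRatAlgHom Subtype.val_injective).mp
        h.isIntegral
    obtain ⟨c, hc⟩ := rat_of_alg _ (RingHom.IsIntegralElem.map h1 x.emb.toRingHom)
    exact ⟨c, congrArg Subtype.val (x.emb.injective (hc.trans (map_ratCast x.emb c).symm))⟩
  have hI : ∀ s : K, IsIntegral x.carrier s := fun s => (Algebra.IsAlgebraic.isAlgebraic s).isIntegral
  set c := (a + b) / 2 with hc
  set f := minpoly x.carrier c with hf
  obtain ⟨a', b', h1, h2, h3, h4⟩ : ∃ a' b', a < a' ∧ a' < b' ∧ b' < b ∧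
      aeval a' f * aeval b' f < 0 := by
    obtain ⟨g, hg⟩ : X - C c ∣ f.map (algebraMap _ K) :=
      dvd_iff_isRoot.mpr (by rw [IsRoot, eval_map_algebraMap, minpoly.aeval])
    have h1 : g.eval c ≠ 0 := by
      have := (minpoly.irreducible (hI c)).separable.aeval_derivative_ne_zero (minpoly.aeval _ c)
      rw [← eval_map_algebraMap, ← derivative_map, ← hf, hg] at this
      simpa using this
    let : TopologicalSpace K := Preorder.topology K
    have : OrderTopology K := ⟨rfl⟩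
    have h2 : ∀ᶠ y in nhds c, 0 < g.eval y * g.eval c ∧ y ∈ Set.Ioo a b :=
      ((g.continuous.mul continuous_const).continuousAt.eventually
        (lt_mem_nhds (mul_self_pos.mpr h1))).and (Ioo_mem_nhds (by linarith) (by linarith))
    obtain ⟨l, u, ⟨h3, h4⟩, h5⟩ := mem_nhds_iff_exists_Ioo_subset.mp h2
    obtain ⟨a', h6, h7⟩ := exists_between h3
    obtain ⟨b', h8, h9⟩ := exists_between h4
    obtain ⟨h10, h11, -⟩ := h5 ⟨h6, h7.trans h4⟩
    obtain ⟨h12, -, h13⟩ := h5 ⟨h3.trans h8, h9⟩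
    refine ⟨a', b', h11, h7.trans h8, h13, ?_⟩
    simp only [← eval_map_algebraMap, hg, eval_mul, eval_sub, eval_X, eval_C]
    rw [mul_mul_mul_comm]
    refine mul_neg_of_neg_of_pos (mul_neg_of_neg_of_pos (by linarith) (by linarith)) ?_
    have := mul_pos h10 h12
    rw [mul_mul_mul_comm] at this
    exact (pos_iff_pos_of_mul_pos this).mpr (mul_self_pos.mpr h1)
  set d := f.natDegree
  set r := f - q _ d with hr
  have h5 : r.degree < d := by
    rw [← degree_eq_natDegree (minpoly.ne_zero (hI c))]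
    refine degree_sub_lt_left ?_ (minpoly.ne_zero (hI c))
      ((minpoly.monic (hI c)).trans (q_monic _ d).symm)
    rw [degree_eq_natDegree (q_monic _ d).ne_zero, q_deg,
      degree_eq_natDegree (minpoly.ne_zero (hI c))]
  obtain ⟨_, ⟨k, rfl⟩, h6⟩ := IsLocalization.integerNormalization_spec
    (Submonoid.powers (PowerSeries.X : ℚ⟦X⟧)) (r.map x.emb.toRingHom)
  set r' := IsLocalization.integerNormalization (Submonoid.powers (PowerSeries.X : ℚ⟦X⟧))
    (r.map x.emb.toRingHom)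
  set t := algebraMap (RatFunc ℚ) K RatFunc.X with htd
  have h7 : 1 < t := by simpa using ht 1
  have h8 : ∀ y : K, aeval y f ≠ 0 → ∀ᶠ N in Filter.atTop,
      0 < (aeval y f - (1 + t ^ N)⁻¹ * aeval y r) * aeval y f := fun y hy => by
    obtain ⟨M, hM⟩ := cofinal ht (aeval y r / aeval y f)
    refine (Filter.eventually_ge_atTop M).mono fun N hN => ?_
    have h9 := pow_le_pow_right₀ h7.le hN
    have h10 : 0 < 1 + t ^ N := by positivity
    have h11 : (aeval y f - (1 + t ^ N)⁻¹ * aeval y r) * aeval y f =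
        (1 + t ^ N)⁻¹ * (1 + t ^ N - aeval y r / aeval y f) * (aeval y f * aeval y f) := by
      field_simp
    rw [h11]
    exact mul_pos (mul_pos (inv_pos.mpr h10) (by linarith [le_abs_self (aeval y r / aeval y f)]))
      (mul_self_pos.mpr hy)
  obtain ⟨N, h9, h10, h11⟩ := ((h8 a' (left_ne_zero_of_mul h4.ne)).and
    ((h8 b' (right_ne_zero_of_mul h4.ne)).and (Filter.eventually_gt_atTop k))).exists
  obtain ⟨m, rfl⟩ := Nat.exists_eq_add_of_lt h11
  let z : x.carrier := algebraMap (RatFunc ℚ) _ (1 + RatFunc.X ^ (k + m + 1))⁻¹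
  have h12 : ∀ y : K, ((f - C z * r).map (algebraMap _ K)).eval y =
      aeval y f - (1 + t ^ (k + m + 1))⁻¹ * aeval y r := fun y => by
    rw [eval_map_algebraMap, map_sub, map_mul, aeval_C, ← IsScalarTower.algebraMap_apply]
    simp [htd]
  obtain ⟨s, h13, h14, h15⟩ := ivt ((f - C z * r).map (algebraMap _ K)) h2 (by
    rw [h12, h12]
    have := mul_pos h9 h10
    rw [mul_mul_mul_comm] at this
    exact neg_of_mul_pos_left this h4.le)
  obtain ⟨u, hu⟩ := (PowerSeries.isUnit_iff_constantCoeff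
    (φ := (1 + PowerSeries.X ^ (k + m + 1) : ℚ⟦X⟧))).mpr (by simp) |>.exists_right_inv
  have h16 : (f - C z * r).map x.emb.toRingHom =
      (q _ d + C PowerSeries.X * (C (PowerSeries.X ^ m * u) * r')).map (algebraMap ℚ⟦X⟧ ℚ⸨X⸩) := by
    have h17 : x.emb z = algebraMap ℚ⟦X⟧ ℚ⸨X⸩ u := by
      rw [AlgHom.commutes, map_inv₀]
      refine inv_eq_of_mul_eq_one_right ?_
      simpa using congrArg (algebraMap ℚ⟦X⟧ ℚ⸨X⸩) hu
    have h18 := congrArg (fun y => C (algebraMap ℚ⟦X⟧ ℚ⸨X⸩ y)) hu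
    rw [← sub_add_cancel f (q _ d), ← hr]
    simp only [Polynomial.map_sub, Polynomial.map_add, Polynomial.map_mul, map_C, q_map, h6,
      AlgHom.toRingHom_eq_coe, RingHom.coe_coe, h17, map_mul, map_pow, map_add, map_one,
      Algebra.smul_def, Polynomial.algebraMap_apply, Polynomial.map_pow] at h18 ⊢
    linear_combination (-(r.map (x.emb : x.carrier →+* ℚ⸨X⸩))) * h18
  have h17 : (C (PowerSeries.X ^ m * u) * r').degree < (d : WithBot ℕ) := by
    rw [← smul_eq_C_mul]
    refine (degree_smul_le _ _).trans_lt ?_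
    rw [← degree_map_eq_of_injective (IsFractionRing.injective ℚ⟦X⟧ ℚ⸨X⸩), h6]
    exact (degree_smul_le _ _).trans_lt (degree_map_le.trans_lt h5)
  obtain ⟨y, h18, h19⟩ := x.exists_lift_of_splits' (hI s) ((h16 ▸ hensel d _ h17).of_dvd
    (map_ne_zero fun h => by rw [h, Polynomial.map_zero] at h12; simp [← h12] at h9)
    (Polynomial.map_dvd _ (minpoly.dvd _ _ (by rwa [← eval_map_algebraMap]))))
  exact ⟨s, (hx h18).1 h19, h1.trans h13, h14.trans h3⟩

end Pool.Agent.Results.MP_9bb08e_al.Yes
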